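import Pool.Agent.H96.Design

/-!
# Symmetric designs whose blocks are decided by circuits of depth three

The points of a symmetric `2-(v, k, lam)` design have names of `m` bits, `2 ^ m ≤ D v`, in any
labelling. Suppose that for every block the set of names of its points is an OR of at most
`L ≤ v ^ β` formulas in `c`-CNF (a circuit of depth three with bottom fan-in `c`, which may depend
on the block in any way), where `c = 3`, `β < 1 / 10` or `c ≤ 2`, `β < 1 / 2`. Then `v` is bounded in
terms of `lam`, `D` and `β`: Hall's conjecture holds for these designs.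

For `c ≤ 2` the exponent `1 / 2` is best possible for projective planes (`lam = 1`), as the blocks
are unions of `k ~ v ^ (1 / 2)` single points.
-/

set_option autoImplicit false

namespace Pool.Agent.Results.MP_c38931_co.DepthThreeBlocks

open Pool.Agent.H96.Ppz

open Classical in
theorem result (c lam D : ℕ) (β : ℝ) (hlam : 1 ≤ lam) (hβ : 0 ≤ β)
    (hc : (c ≤ 2 ∧ β < 1 / 2) ∨ (c = 3 ∧ β < 1 / 10)) :
    ∃ N : ℕ, ∀ (m v k L : ℕ) (B : Fin v → Finset (Fin v)) (p : Fin v → Fin m → Bool),
      2 ^ m ≤ D * v → Function.Injective p → (∀ i, (B i).card = k) →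
      (∀ x y : Fin v, x ≠ y →
        (Finset.univ.filter (fun i => x ∈ B i ∧ y ∈ B i)).card = lam) →
      (L : ℝ) ≤ (v : ℝ) ^ β → (∀ i, Depth3 L c (p '' (B i : Set (Fin v)))) → v ≤ N :=
  Pool.Agent.H96.Ppsz.design_bound c lam D β hlam hβ hc

end Pool.Agent.Results.MP_c38931_co.DepthThreeBlocks
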