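import Mathlib
import Pool.Agent.R116.HallFew

set_option autoImplicit false

/-!
# Fixed `lam`: symmetric designs with a group of automorphisms with few point orbits
-/

namespace Pool.Agent.Results.MP_c38931_co.FewOrbits

/-- The blocks `B i` (`i : Fin v`) form a symmetric `2-(v, k, lam)` design on the points `Fin v`
with `2 ≤ k < v`. -/
structure IsSymmetricDesign (v k lam : ℕ) (B : Fin v → Finset (Fin v)) : Prop where
  two_le : 2 ≤ k
  lt : k < v
  size : ∀ i, (B i).card = k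
  pair : ∀ x y : Fin v, x ≠ y →
    (Finset.univ.filter (fun i => x ∈ B i ∧ y ∈ B i)).card = lam

/-- The permutation `σ` of the points maps every block to a block. -/
def IsAutomorphism {v : ℕ} (B : Fin v → Finset (Fin v)) (σ : Equiv.Perm (Fin v)) : Prop :=
  ∀ i, ∃ j, (B i).image σ = B j

/-- For every prime divisor `q > t` of `v` some automorphism whose order is a power of `q` fixes an
even number of points. -/
def EvenFixed (t v : ℕ) (B : Fin v → Finset (Fin v)) : Prop :=
  ∀ q : ℕ, q.Prime → t < q → q ∣ v → ∃ (σ : Equiv.Perm (Fin v)) (a : ℕ),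
    IsAutomorphism B σ ∧ orderOf σ = q ^ a ∧
      Even (Finset.univ.filter (fun x : Fin v => σ x = x)).card

/-- `H` has at most `t` orbits on the points, and all point stabilizers have order at most `t`. -/
def HasFewOrbits (t v : ℕ) (H : Subgroup (Equiv.Perm (Fin v))) : Prop :=
  Nat.card (MulAction.orbitRel.Quotient H (Fin v)) ≤ t ∧
    ∀ x : Fin v, Nat.card (MulAction.stabilizer H x) ≤ t

/-- `H` is transitive on the points, and no prime `q > t` divides both `v` and the order of a point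
stabilizer. -/
def TransitiveCoprime (t v : ℕ) (H : Subgroup (Equiv.Perm (Fin v))) : Prop :=
  (∀ x y : Fin v, ∃ h ∈ H, h x = y) ∧
    ∀ q : ℕ, q.Prime → q ∣ v → ∀ x : Fin v, q ∣ Nat.card (MulAction.stabilizer H x) → q ≤ t

/-- The block sizes `k` of the symmetric `2-(v, k, lam)` designs (`v` arbitrary) with `EvenFixed t`
or with a group of automorphisms `H` with `HasFewOrbits t` or `TransitiveCoprime t`. -/
def blockSizes (lam t : ℕ) : Set ℕ :=
  {k : ℕ | ∃ (v : ℕ) (B : Fin v → Finset (Fin v)), IsSymmetricDesign v k lam B ∧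
    (EvenFixed t v B ∨ ∃ H : Subgroup (Equiv.Perm (Fin v)), (∀ h ∈ H, IsAutomorphism B h) ∧
      (HasFewOrbits t v H ∨ TransitiveCoprime t v H))}

theorem sub_blk (lam t : ℕ) : blockSizes lam t ⊆ Pool.Agent.R116.Hall.blk (t * t.factorial) lam := by
  rintro k ⟨v, B, hd, h⟩
  have hv : 2 ≤ v := by
    have h1 := hd.two_le
    have h2 := hd.lt
    omega
  have ht : t ≤ t * t.factorial := Nat.le_mul_of_pos_right _ (Nat.factorial_pos t)
  refine ⟨v, B, ⟨hd.two_le, hd.lt, hd.size, hd.pair⟩, ?_⟩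
  rcases h with h | ⟨H, haut, h | h⟩
  · refine Pool.Agent.R116.Hall.Ev.mono (s := t) ?_ ht
    intro q hq htq hqv
    obtain ⟨σ, a, h1, h2, h3⟩ := h q hq htq hqv
    exact ⟨σ, a, h1, by rw [← h2]; exact pow_orderOf_eq_one σ, h3⟩
  · exact Pool.Agent.R116.Hall.ev_few hv H haut h.1 h.2
  · exact (Pool.Agent.R116.Hall.ev_trans H haut h.1 h.2).mono ht

/-- Let `lam ≥ 1` and `t` be given. (1) For every `ε > 0` there is `C` such that for all `X ≥ 3` at
most `C X (log X) ^ (ε - 1)` integers `k ≤ X` lie in `blockSizes lam t`. (2) If `lam` is not a perfect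
square, then the exponent may be replaced by `ε - 9 / 8`; in particular the sum of `1 / k` over
`blockSizes lam t` converges. -/
theorem result (lam t : ℕ) (hlam : 1 ≤ lam) :
    (∀ ε : ℝ, 0 < ε → ∃ C : ℝ, 0 < C ∧ ∀ X : ℕ, 3 ≤ X →
      ({k : ℕ | k ≤ X ∧ k ∈ blockSizes lam t}.ncard : ℝ) ≤ C * X * (Real.log X) ^ (ε - 1)) ∧
    (¬ IsSquare lam →
      (∀ ε : ℝ, 0 < ε → ∃ C : ℝ, 0 < C ∧ ∀ X : ℕ, 3 ≤ X →
        ({k : ℕ | k ≤ X ∧ k ∈ blockSizes lam t}.ncard : ℝ) ≤
          C * X * (Real.log X) ^ (ε - 9 / 8)) ∧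
      Summable ((blockSizes lam t).indicator (fun k : ℕ => 1 / (k : ℝ)))) := by
  have hle : ∀ X : ℕ, ({k : ℕ | k ≤ X ∧ k ∈ blockSizes lam t}.ncard : ℝ) ≤
      ({k : ℕ | k ≤ X ∧ k ∈ Pool.Agent.R116.Hall.blk (t * t.factorial) lam}.ncard : ℝ) := by
    intro X
    have hfin : {k : ℕ | k ≤ X ∧ k ∈ Pool.Agent.R116.Hall.blk (t * t.factorial) lam}.Finite :=
      (Set.finite_Iic X).subset fun n hn => hn.1
    have hsub : {k : ℕ | k ≤ X ∧ k ∈ blockSizes lam t} ⊆
        {k : ℕ | k ≤ X ∧ k ∈ Pool.Agent.R116.Hall.blk (t * t.factorial) lam} :=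
      fun k hk => ⟨hk.1, sub_blk lam t hk.2⟩
    exact_mod_cast Set.ncard_le_ncard hsub hfin
  refine ⟨fun ε hε => ?_, fun hsq => ⟨fun ε hε => ?_, ?_⟩⟩
  · obtain ⟨C, hC, h⟩ := Pool.Agent.R116.Hall.count_all lam (t * t.factorial) hlam ε hε
    exact ⟨C, hC, fun X hX => (hle X).trans (h X hX)⟩
  · obtain ⟨C, hC, h⟩ := Pool.Agent.R116.Hall.count_nsq lam (t * t.factorial) hlam hsq ε hε
    exact ⟨C, hC, fun X hX => (hle X).trans (h X hX)⟩
  · refine Summable.of_nonneg_of_le (fun k => ?_) (fun k => ?_)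
      (Pool.Agent.R116.Hall.summable_nsq lam (t * t.factorial) hlam hsq)
    · exact Set.indicator_nonneg (fun k _ => by positivity) k
    · exact Set.indicator_le_indicator_of_subset (sub_blk lam t) (fun k => by positivity) k

end Pool.Agent.Results.MP_c38931_co.FewOrbits
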