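import Mathlib
import Pool.Agent.R117.Pol.Final

set_option autoImplicit false

/-!
# Fixed `lam`: polarities of symmetric designs have many absolute points
-/

namespace Pool.Agent.Results.MP_c38931_co.PolarityAbsolutePoints

/-- The blocks `B i` (`i : Fin v`) form a symmetric `2-(v, k, lam)` design on the points `Fin v`
with `2 ≤ k < v`. -/
structure IsSymmetricDesign (v k lam : ℕ) (B : Fin v → Finset (Fin v)) : Prop where
  two_le : 2 ≤ k
  lt : k < v
  size : ∀ i, (B i).card = k
  pair : ∀ x y : Fin v, x ≠ y →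
    (Finset.univ.filter (fun i => x ∈ B i ∧ y ∈ B i)).card = lam

/-- `π` is a polarity: a bijection from the points to the blocks such that `x` lies on the block
of `y` if and only if `y` lies on the block of `x`. -/
def IsPolarity {v : ℕ} (B : Fin v → Finset (Fin v)) (π : Fin v → Fin v) : Prop :=
  Function.Bijective π ∧ ∀ x y, x ∈ B (π y) ↔ y ∈ B (π x)

/-- The absolute points of `π`: the points lying on their own polar blocks. -/
def absolutePoints {v : ℕ} (B : Fin v → Finset (Fin v)) (π : Fin v → Fin v) : Finset (Fin v) :=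
  Finset.univ.filter (fun x => x ∈ B (π x))

/-- (1) A polarity of a symmetric `2-(v, k, lam)` design with `lam ≥ 1` and `k > lam (lam + 1)` has
at least `(k - √k) / lam` absolute points. (2) Hence, for every `lam ≥ 1` and `c`, only finitely
many pairs `(v, k)` are the parameters of a symmetric `2-(v, k, lam)` design having a polarity
with at most `c` absolute points. -/
theorem result :
    (∀ (v k lam : ℕ) (B : Fin v → Finset (Fin v)) (π : Fin v → Fin v), 1 ≤ lam →
      IsSymmetricDesign v k lam B → IsPolarity B π → lam * (lam + 1) < k →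
        (k : ℝ) - Real.sqrt k ≤ lam * (absolutePoints B π).card) ∧
    (∀ lam c : ℕ, 1 ≤ lam →
      {p : ℕ × ℕ | ∃ (B : Fin p.1 → Finset (Fin p.1)) (π : Fin p.1 → Fin p.1),
        IsSymmetricDesign p.1 p.2 lam B ∧ IsPolarity B π ∧
          (absolutePoints B π).card ≤ c}.Finite) := by
  classical
  have key : ∀ (v k lam : ℕ) (B : Fin v → Finset (Fin v)) (π : Fin v → Fin v),
      IsSymmetricDesign v k lam B → IsPolarity B π →
        Pool.Agent.R117.Pol.Sym v k lam (fun x => B (π x)) := by
    intro v k lam B π hB hπ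
    refine ⟨hπ.2, fun x => hB.size _, fun x y hxy => ?_⟩
    have h1 : B (π x) ∩ B (π y) = Finset.univ.filter (fun i => x ∈ B (π i) ∧ y ∈ B (π i)) := by
      ext i
      rw [Finset.mem_inter, Finset.mem_filter, hπ.2 i x, hπ.2 i y]
      simp
    rw [h1, ← hB.pair x y hxy]
    refine Finset.card_bij (fun i _ => π i) ?_ ?_ ?_
    · intro i hi
      simpa using hi
    · intro i _ j _ hij
      exact hπ.1.1 hij
    · intro j hj
      obtain ⟨i, rfl⟩ := hπ.1.2 j
      exact ⟨i, by simpa using hj, rfl⟩
  have one : ∀ (v k lam : ℕ) (B : Fin v → Finset (Fin v)) (π : Fin v → Fin v), 1 ≤ lam →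
      IsSymmetricDesign v k lam B → IsPolarity B π → lam * (lam + 1) < k →
        (k : ℝ) - Real.sqrt k ≤ lam * (absolutePoints B π).card := by
    intro v k lam B π hlam hB hπ hk
    have h := key v k lam B π hB hπ
    have hv : 1 ≤ v := by have := hB.lt; omega
    by_cases hne : (Finset.univ.filter (fun x => x ∈ B (π x))).Nonempty
    · exact h.lower hv hlam (by omega) hne
    · exact absurd (h.null hv hlam hne) (by omega)
  refine ⟨one, fun lam c hlam => ?_⟩
  set K : ℕ := lam * (lam + 1) + 2 * (lam * c) + 4 with hK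
  refine Set.Finite.subset (Set.finite_Icc ((0, 0) : ℕ × ℕ) (K * K, K)) ?_
  rintro ⟨v, k⟩ ⟨B, π, hB, hπ, hc⟩
  simp only at B π hB hπ hc
  have h := key v k lam B π hB hπ
  have hv : 1 ≤ v := by have := hB.lt; omega
  have hkK : k ≤ K := by
    by_contra hcon
    push Not at hcon
    have h1 := one v k lam B π hlam hB hπ (by omega)
    have h2 : (lam : ℝ) * (absolutePoints B π).card ≤ lam * c := by
      have : lam * (absolutePoints B π).card ≤ lam * c := Nat.mul_le_mul_left _ hc
      exact_mod_cast this
    have h3 : (2 : ℝ) ≤ Real.sqrt k := by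
      have : (4 : ℕ) ≤ k := by omega
      have h4 : (4 : ℝ) ≤ k := by exact_mod_cast this
      rw [Real.le_sqrt' (by norm_num)]
      linarith
    have hkk : Real.sqrt k * Real.sqrt k = k := Real.mul_self_sqrt (Nat.cast_nonneg k)
    have h5 : (k : ℝ) ≤ 2 * (lam * c) := by nlinarith
    have h6 : k ≤ 2 * (lam * c) := by exact_mod_cast h5
    omega
  have hvK : v ≤ K * K := by
    have h1 := h.count ⟨0, hv⟩
    have h2 : v - 1 ≤ lam * (v - 1) := Nat.le_mul_of_pos_left _ hlam
    have h3 : k * (k - 1) + k = k * k := by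
      obtain ⟨j, rfl⟩ : ∃ j, k = j + 1 := ⟨k - 1, by have := hB.two_le; omega⟩
      rw [Nat.add_sub_cancel]; ring
    have h4 : k * k ≤ K * K := Nat.mul_le_mul hkK hkK
    have := hB.two_le
    omega
  exact ⟨⟨Nat.zero_le _, Nat.zero_le _⟩, ⟨hvK, hkK⟩⟩

end Pool.Agent.Results.MP_c38931_co.PolarityAbsolutePoints
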