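import Mathlib
import Pool.Agent.R116.FewTup

set_option autoImplicit false

/-!
# Fixed `lam`, orders with a fixed number of prime factors: groups with few point orbits
-/

namespace Pool.Agent.Results.MP_c38931_co.PrimeFactorsFewOrbits

open Filter Topology

/-- The blocks `B i` (`i : Fin v`) form a symmetric `2-(v, k, lam)` design on the points `Fin v`
with `2 ≤ k < v`. -/
structure IsSymmetricDesign (v k lam : ℕ) (B : Fin v → Finset (Fin v)) : Prop where
  two_le : 2 ≤ k
  lt : k < v
  size : ∀ i, (B i).card = k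
  pair : ∀ x y : Fin v, x ≠ y →
    (Finset.univ.filter (fun i => x ∈ B i ∧ y ∈ B i)).card = lam

/-- The permutation `σ` of the points maps every block to a block. -/
def IsAutomorphism {v : ℕ} (B : Fin v → Finset (Fin v)) (σ : Equiv.Perm (Fin v)) : Prop :=
  ∀ i, ∃ j, (B i).image σ = B j

/-- For every prime divisor `q > t` of `v` some automorphism whose order is a power of `q` fixes an
even number of points. -/
def EvenFixed (t v : ℕ) (B : Fin v → Finset (Fin v)) : Prop :=
  ∀ q : ℕ, q.Prime → t < q → q ∣ v → ∃ (σ : Equiv.Perm (Fin v)) (a : ℕ),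
    IsAutomorphism B σ ∧ orderOf σ = q ^ a ∧
      Even (Finset.univ.filter (fun x : Fin v => σ x = x)).card

/-- `H` has at most `t` orbits on the points, and all point stabilizers have order at most `t`. -/
def HasFewOrbits (t v : ℕ) (H : Subgroup (Equiv.Perm (Fin v))) : Prop :=
  Nat.card (MulAction.orbitRel.Quotient H (Fin v)) ≤ t ∧
    ∀ x : Fin v, Nat.card (MulAction.stabilizer H x) ≤ t

/-- `H` is transitive on the points, and no prime `q > t` divides both `v` and the order of a point
stabilizer. -/
def TransitiveCoprime (t v : ℕ) (H : Subgroup (Equiv.Perm (Fin v))) : Prop :=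
  (∀ x y : Fin v, ∃ h ∈ H, h x = y) ∧
    ∀ q : ℕ, q.Prime → q ∣ v → ∀ x : Fin v, q ∣ Nat.card (MulAction.stabilizer H x) → q ≤ t

/-- `N = k - lam` is the order of a symmetric `2-(v, k, lam)` design (`v` arbitrary) with
`EvenFixed t` or with a group of automorphisms `H` with `HasFewOrbits t` or
`TransitiveCoprime t`. -/
def IsFewOrbitsOrder (lam t N : ℕ) : Prop :=
  ∃ (v : ℕ) (B : Fin v → Finset (Fin v)), IsSymmetricDesign v (N + lam) lam B ∧
    (EvenFixed t v B ∨ ∃ H : Subgroup (Equiv.Perm (Fin v)), (∀ h ∈ H, IsAutomorphism B h) ∧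
      (HasFewOrbits t v H ∨ TransitiveCoprime t v H))

theorem sub_has {lam t N : ℕ} (h : IsFewOrbitsOrder lam t N) :
    Pool.Agent.R116.FT.HasEv (t * t.factorial) lam N := by
  obtain ⟨v, B, hd, h⟩ := h
  have hv : 2 ≤ v := by
    have h1 := hd.two_le
    have h2 := hd.lt
    omega
  have ht : t ≤ t * t.factorial := Nat.le_mul_of_pos_right _ (Nat.factorial_pos t)
  refine ⟨v, B, ⟨hd.two_le, hd.lt, hd.size, hd.pair⟩, ?_⟩
  rcases h with h | ⟨H, haut, h | h⟩
  · refine Pool.Agent.R116.Hall.Ev.mono (s := t) ?_ ht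
    intro q hq htq hqv
    obtain ⟨σ, a, h1, h2, h3⟩ := h q hq htq hqv
    exact ⟨σ, a, h1, by rw [← h2]; exact pow_orderOf_eq_one σ, h3⟩
  · exact Pool.Agent.R116.Hall.ev_few hv H haut h.1 h.2
  · exact (Pool.Agent.R116.Hall.ev_trans H haut h.1 h.2).mono ht

/-- For fixed `lam ≥ 2`, `t` and `j ≥ 1`, the proportion, among the `N ≤ X` with exactly `j` prime
factors counted with multiplicity, of those which are the order `k - lam` of a symmetric
`2-(v, k, lam)` design with `EvenFixed t`, or with a group of automorphisms with at most `t` point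
orbits and point stabilizers of order at most `t`, or with a point-transitive group of automorphisms
no prime `q > t` divides both `v` and the order of a point stabilizer of, tends to `0` as
`X → ∞`. -/
theorem result (lam t j : ℕ) (hlam : 2 ≤ lam) (hj : 1 ≤ j) :
    Tendsto (fun X : ℕ =>
      ({N : ℕ | N ≤ X ∧ N.primeFactorsList.length = j ∧ IsFewOrbitsOrder lam t N}.ncard : ℝ) /
        ({N : ℕ | N ≤ X ∧ N.primeFactorsList.length = j}.ncard : ℝ)) atTop (𝓝 0) := by
  refine squeeze_zero (fun X => by positivity) (fun X => ?_)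
    (Pool.Agent.R116.FT.density_ev (t * t.factorial) lam j hlam hj)
  apply div_le_div_of_nonneg_right _ (Nat.cast_nonneg _)
  have hsub : ({N : ℕ | N ≤ X ∧ N.primeFactorsList.length = j ∧
          IsFewOrbitsOrder lam t N} : Set ℕ) ⊆
      {N : ℕ | N ≤ X ∧ N.primeFactorsList.length = j ∧
        Pool.Agent.R116.FT.HasEv (t * t.factorial) lam N} := by
    rintro N ⟨hN, hl, h⟩
    exact ⟨hN, hl, sub_has h⟩
  exact_mod_cast Set.ncard_le_ncard hsub ((Set.finite_Iic X).subset fun N hN => hN.1)

end Pool.Agent.Results.MP_c38931_co.PrimeFactorsFewOrbits
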